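import Pool.Agent.Helper18.BV.St

/-!
Siegel's lower bound for `L(1, χ)`, real primitive characters.
-/

set_option autoImplicit false

open Complex Filter Topology
open Pool.Agent.Helper18.BV

namespace Pool.Agent.Helper37.BV

open DirichletCharacter

/-- the entire function `(s-1) ζ(s)` -/
noncomputable def phi : ℂ → ℂ := Function.update (fun s => (s - 1) * riemannZeta s) 1 1

theorem phi_one : phi 1 = 1 := Function.update_self _ _ _

theorem phi_of_ne {s : ℂ} (hs : s ≠ 1) : phi s = (s - 1) * riemannZeta s :=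
  Function.update_of_ne hs _ _

theorem phi_differentiable : Differentiable ℂ phi := by
  rw [← differentiableOn_univ,
    ← differentiableOn_compl_singleton_and_continuousAt_iff (c := 1) Filter.univ_mem]
  refine ⟨DifferentiableOn.congr (f := fun s ↦ (s - 1) * riemannZeta s)
    (fun s hs ↦ DifferentiableAt.differentiableWithinAt <| ?_)
    fun _ hs ↦ Function.update_of_ne (Set.mem_sdiff_singleton.mp hs).2 ..,
    continuousWithinAt_compl_self.mp ?_⟩
  · exact (differentiableAt_id.sub_const 1).mul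
      (differentiableAt_riemannZeta (Set.mem_sdiff_singleton.mp hs).2)
  · unfold phi
    simpa using riemannZeta_residue_one

theorem zeta_neg : ∃ δ : ℝ, 0 < δ ∧ ∀ β : ℝ, 1 - δ < β → β < 1 → (riemannZeta β).re < 0 := by
  have hc : ContinuousAt phi 1 := (phi_differentiable 1).continuousAt
  obtain ⟨δ, hδ, h⟩ := Metric.continuousAt_iff.1 hc 1 one_pos
  refine ⟨δ, hδ, fun β h1 h2 => ?_⟩
  have hne : (β : ℂ) ≠ 1 := by
    intro h3
    have : β = 1 := by exact_mod_cast h3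
    linarith
  have h3 : dist (phi β) (phi 1) < 1 := by
    apply h
    rw [dist_eq_norm]
    have : (β : ℂ) - 1 = ((β - 1 : ℝ) : ℂ) := by push_cast; ring
    rw [this, Complex.norm_real, Real.norm_eq_abs, abs_lt]
    constructor <;> linarith
  rw [phi_one, dist_eq_norm] at h3
  have h4 : 0 < (phi β).re := by
    have h5 := Complex.abs_re_le_norm (phi β - 1)
    rw [Complex.sub_re, Complex.one_re] at h5
    have h6 := abs_lt.1 (lt_of_le_of_lt h5 h3)
    linarith [h6.1]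
  rw [phi_of_ne hne] at h4
  have h5 : ((β : ℂ) - 1) = ((β - 1 : ℝ) : ℂ) := by push_cast; ring
  rw [h5, Complex.re_ofReal_mul] at h4
  by_contra h6
  push Not at h6
  nlinarith

/-- quadratic characters are real -/
theorem conj_apply {q : ℕ} [NeZero q] {χ : DirichletCharacter ℂ q} (hχ : χ ^ 2 = 1)
    (a : ZMod q) : (starRingEnd ℂ) (χ a) = χ a := by
  have h1 : χ⁻¹ = χ := by
    rw [inv_eq_iff_mul_eq_one, ← sq, hχ]
  have h2 := MulChar.star_apply' χ a
  rw [h1] at h2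
  exact h2

theorem LFunction_conj {q : ℕ} [NeZero q] {χ : DirichletCharacter ℂ q} (hχ : χ ^ 2 = 1)
    (hχ1 : χ ≠ 1) (s : ℂ) :
    (starRingEnd ℂ) (LFunction χ ((starRingEnd ℂ) s)) = LFunction χ s := by
  set F : ℂ → ℂ := (starRingEnd ℂ) ∘ LFunction χ ∘ (starRingEnd ℂ) with hF
  have hd : Differentiable ℂ (LFunction χ) := differentiable_LFunction hχ1
  have hdF : Differentiable ℂ F := by
    intro z
    rw [hF]
    exact differentiableAt_conj_conj_iff.2 (hd _)
  have heq : F = LFunction χ := by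
    apply AnalyticOnNhd.eq_of_eventuallyEq (z₀ := 2)
      (fun z _ => hdF.analyticAt z) (fun z _ => hd.analyticAt z)
    have hU : {z : ℂ | 1 < z.re} ∈ 𝓝 (2 : ℂ) :=
      (isOpen_lt continuous_const Complex.continuous_re).mem_nhds (by simp)
    filter_upwards [hU] with z hz
    have hz' : 1 < ((starRingEnd ℂ) z).re := by rwa [Complex.conj_re]
    change (starRingEnd ℂ) (LFunction χ ((starRingEnd ℂ) z)) = LFunction χ z
    rw [LFunction_eq_LSeries χ hz', LFunction_eq_LSeries χ hz, LSeries, LSeries, Complex.conj_tsum]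
    refine tsum_congr fun n => ?_
    rcases eq_or_ne n 0 with rfl | hn
    · simp [LSeries.term_zero]
    · rw [LSeries.term_of_ne_zero hn, LSeries.term_of_ne_zero hn, map_div₀, conj_apply hχ]
      congr 1
      have harg : (n : ℂ).arg ≠ Real.pi := by
        rw [Complex.natCast_arg]
        exact Real.pi_pos.ne
      rw [Complex.cpow_conj _ _ harg, Complex.conj_conj, Complex.conj_natCast]
  exact congrFun heq s

theorem im_zero {q : ℕ} [NeZero q] {χ : DirichletCharacter ℂ q} (hχ : χ ^ 2 = 1)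
    (hχ1 : χ ≠ 1) (x : ℝ) : (LFunction χ x).im = 0 := by
  have h := LFunction_conj hχ hχ1 (x : ℂ)
  rw [Complex.conj_ofReal] at h
  exact Complex.conj_eq_iff_im.1 h

theorem ofReal_re' {q : ℕ} [NeZero q] {χ : DirichletCharacter ℂ q} (hχ : χ ^ 2 = 1)
    (hχ1 : χ ≠ 1) (x : ℝ) : LFunction χ x = ((LFunction χ x).re : ℂ) := by
  apply Complex.ext
  · simp
  · simp [im_zero hχ hχ1 x]

theorem nonneg_of_no_zero (h5 : AltOne) {q : ℕ} [NeZero q] {χ : DirichletCharacter ℂ q}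
    (hχ : χ ^ 2 = 1) (hχ1 : χ ≠ 1) (β : ℝ) (hβ : β < 1)
    (h : ∀ x : ℝ, β ≤ x → x < 1 → LFunction χ x ≠ 0) : 0 ≤ (LFunction χ β).re := by
  by_contra hneg
  push Not at hneg
  have h2 : 0 < (LFunction χ 2).re := by
    have h3 := (h5 q χ hχ).2
    have h4 : (riemannZeta 2).im = 0 := by
      rw [riemannZeta_two]
      have : ((Real.pi : ℂ) ^ 2 / 6) = ((Real.pi ^ 2 / 6 : ℝ) : ℂ) := by push_cast; ring
      rw [this, Complex.ofReal_im]
    have h6 : (riemannZeta 2).re = Real.pi ^ 2 / 6 := by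
      rw [riemannZeta_two]
      have : ((Real.pi : ℂ) ^ 2 / 6) = ((Real.pi ^ 2 / 6 : ℝ) : ℂ) := by push_cast; ring
      rw [this, Complex.ofReal_re]
    rw [Complex.mul_re, h4, zero_mul, sub_zero, h6] at h3
    by_contra h7
    push Not at h7
    have : 0 ≤ Real.pi ^ 2 / 6 := by positivity
    nlinarith
  have hcont : Continuous fun x : ℝ => (LFunction χ x).re := by
    have := (differentiable_LFunction hχ1).continuous
    exact Complex.continuous_re.comp (this.comp Complex.continuous_ofReal)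
  have hmem : (0 : ℝ) ∈ Set.Icc ((fun x : ℝ => (LFunction χ x).re) β)
      ((fun x : ℝ => (LFunction χ x).re) 2) := by
    constructor
    · exact hneg.le
    · have : ((2 : ℝ) : ℂ) = 2 := by norm_num
      simp only [this]
      exact h2.le
  obtain ⟨x, hx, hx0⟩ := intermediate_value_Icc (by linarith : β ≤ 2) hcont.continuousOn hmem
  have hx0' : LFunction χ x = 0 := by
    rw [ofReal_re' hχ hχ1 x]
    have : (LFunction χ x).re = 0 := hx0
    rw [this, Complex.ofReal_zero]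
  rcases lt_or_ge x 1 with h1 | h1
  · exact h x hx.1 h1 hx0'
  · exact LFunction_ne_zero_of_one_le_re χ (Or.inl hχ1) (by simpa using h1) hx0'

theorem estermann_apply (h3 : Estermann) : ∃ c K C0 : ℝ, 0 < c ∧ 0 < K ∧ 1 ≤ C0 ∧
    ∀ (La : ℂ → ℂ) (lam B β : ℝ), Differentiable ℂ La → La 1 = lam →
      (∀ m : ℕ, 0 ≤ ((-1 : ℂ) ^ m * iteratedDeriv m (fun s => riemannZeta s * La s) 2).re) →
      1 ≤ (riemannZeta 2 * La 2).re → 1 ≤ B → (∀ s : ℂ, ‖s - 2‖ = 4 / 3 → ‖La s‖ ≤ B) →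
      |lam| ≤ B → 9 / 10 ≤ β → β < 1 → (riemannZeta β * La β).re ≤ 0 →
      c * (1 - β) * (C0 * B) ^ (-(K * (1 - β))) ≤ lam := by
  obtain ⟨c, K, hc, hK, h⟩ := h3
  obtain ⟨C, hC⟩ := (isCompact_closedBall (2 : ℂ) (4 / 3)).exists_bound_of_continuousOn
    phi_differentiable.continuous.continuousOn
  have hC0 : 0 ≤ C := le_trans (norm_nonneg _) (hC 2 (Metric.mem_closedBall_self (by norm_num)))
  refine ⟨c, K, 3 * (C + 1), hc, hK, by linarith, ?_⟩
  intro La lam B β hLa h1 halt h2 hB hbd hlam hβ hβ1 hneg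
  set H : ℂ → ℂ := fun s => phi s * La s with hH
  have hH1 : H 1 = lam := by rw [hH]; simp only [phi_one, one_mul, h1]
  have hHd : Differentiable ℂ H := phi_differentiable.mul hLa
  have hG : ∀ s : ℂ, s ≠ 1 → dslope H 1 s = (H s - lam) / (s - 1) := by
    intro s hs
    rw [dslope_of_ne _ hs, slope_def_field, hH1]
  have hf : ∀ s : ℂ, s ≠ 1 → riemannZeta s * La s = lam / (s - 1) + dslope H 1 s := by
    intro s hs
    have hs' : s - 1 ≠ 0 := sub_ne_zero.2 hs
    rw [hG s hs, ← add_div, add_sub_cancel, hH]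
    simp only
    rw [phi_of_ne hs]
    field_simp
  apply h (fun s => riemannZeta s * La s) (dslope H 1) lam (3 * (C + 1) * B) β halt h2
  · nlinarith
  · intro s hs
    apply hf
    intro h4
    rw [h4] at hs
    simp at hs
  · exact ((Complex.differentiableOn_dslope (Filter.univ_mem)).2
      hHd.differentiableOn).mono (Set.subset_univ _)
  · intro s hs
    have hs1 : 1 / 3 ≤ ‖s - 1‖ := by
      have h5 : ‖s - 2‖ ≤ ‖s - 1‖ + 1 := by
        have : s - 2 = (s - 1) - 1 := by ring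
        rw [this]
        refine (norm_sub_le _ _).trans ?_
        rw [norm_one]
      linarith
    have hne : s ≠ 1 := by
      intro h6
      rw [h6, sub_self, norm_zero] at hs1
      linarith
    rw [hG s hne, norm_div, div_le_iff₀ (by linarith)]
    have h7 : ‖H s‖ ≤ C * B := by
      rw [hH]
      simp only
      rw [norm_mul]
      apply mul_le_mul (hC s _) (hbd s hs) (norm_nonneg _) hC0
      rw [Metric.mem_closedBall, dist_eq_norm, hs]
    have h8 : ‖(lam : ℂ)‖ ≤ B := by rw [Complex.norm_real]; exact hlam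
    have h9 : ‖H s - lam‖ ≤ (C + 1) * B := by
      refine (norm_sub_le _ _).trans ?_
      linarith
    have h10 : 0 ≤ (C + 1) * B := by nlinarith
    nlinarith
  · exact hβ
  · exact hβ1
  · have hne : (β : ℂ) ≠ 1 := by
      intro h3
      have : β = 1 := by exact_mod_cast h3
      linarith
    have h4 := hf β hne
    have h5 : dslope H 1 β = riemannZeta β * La β + ((lam / (1 - β) : ℝ) : ℂ) := by
      have h6 : (lam : ℂ) / ((β : ℂ) - 1) = -((lam / (1 - β) : ℝ) : ℂ) := by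
        push_cast
        rw [← neg_sub (1 : ℂ) (β : ℂ), div_neg]
      rw [h4, h6]
      ring
    rw [h5, Complex.add_re, Complex.ofReal_re]
    linarith

theorem norm_le_circle (h1 : LBound) {q : ℕ} [NeZero q] {χ : DirichletCharacter ℂ q}
    (hχ1 : χ ≠ 1) (s : ℂ) (hs : ‖s - 2‖ = 4 / 3) : ‖LFunction χ s‖ ≤ 5 * q := by
  have hre : 2 / 3 ≤ s.re := by
    have h3 := Complex.abs_re_le_norm (s - 2)
    rw [hs] at h3
    have h4 := (abs_le.1 h3).1
    simp at h4
    linarith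
  have hn : ‖s‖ ≤ 10 / 3 := by
    have : s = (s - 2) + 2 := by ring
    rw [this]
    refine (norm_add_le _ _).trans ?_
    rw [hs]
    norm_num
  have h5 := h1 q χ hχ1 s (by linarith)
  refine h5.trans ?_
  rw [div_le_iff₀ (by linarith)]
  have hq : (0 : ℝ) ≤ q := Nat.cast_nonneg q
  nlinarith [mul_le_mul_of_nonneg_left hn hq, mul_le_mul_of_nonneg_left hre hq]

theorem norm_le_one (h1 : LBound) {q : ℕ} [NeZero q] {χ : DirichletCharacter ℂ q}
    (hχ1 : χ ≠ 1) : ‖LFunction χ 1‖ ≤ q := by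
  have := h1 q χ hχ1 1 (by simp)
  simpa using this

theorem same {q q1 : ℕ} [NeZero q] [NeZero q1] {χ : DirichletCharacter ℂ q}
    {χ1 : DirichletCharacter ℂ q1} (hp : χ.IsPrimitive) (hp1 : χ1.IsPrimitive)
    (h : ∀ n : ℤ, IsCoprime n q → IsCoprime n q1 → χ n = χ1 n) :
    LFunction χ 1 = LFunction χ1 1 := by
  have hne : NeZero (q1 * q) := ⟨mul_ne_zero (NeZero.ne q1) (NeZero.ne q)⟩
  have hc : changeLevel (dvd_mul_left q q1) χ = changeLevel (dvd_mul_right q1 q) χ1 := by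
    ext a
    have hcop := ZMod.val_coe_unit_coprime a
    have hcopZ : IsCoprime (((a : ZMod (q1 * q)).val : ℕ) : ℤ) ((q1 * q : ℕ) : ℤ) :=
      Nat.isCoprime_iff_coprime.2 hcop
    have ha : ((((a : ZMod (q1 * q)).val : ℕ) : ℤ) : ZMod (q1 * q)) = a := by
      push_cast
      rw [ZMod.natCast_zmod_val]
    rw [← ha, changeLevel_eq_cast_of_dvd' _ _ hcopZ, changeLevel_eq_cast_of_dvd' _ _ hcopZ]
    apply h
    · push_cast at hcopZ ⊢
      exact hcopZ.of_mul_right_right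
    · push_cast at hcopZ ⊢
      exact hcopZ.of_mul_right_left
  have hq : q = q1 := by
    have h2 := conductor_changeLevel χ (dvd_mul_left q q1)
    have h3 := conductor_changeLevel χ1 (dvd_mul_right q1 q)
    rw [hc, h3] at h2
    rw [← (isPrimitive_def χ).1 hp, ← (isPrimitive_def χ1).1 hp1, h2]
  subst hq
  have : χ = χ1 := changeLevel_injective (dvd_mul_left q q) hc
  rw [this]

theorem chi3 {q q1 : ℕ} [NeZero q] [NeZero q1] {χ : DirichletCharacter ℂ q}
    {χ1 : DirichletCharacter ℂ q1} (hχ2 : χ ^ 2 = 1) (hχ12 : χ1 ^ 2 = 1)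
    (h : ∃ n : ℤ, IsCoprime n q ∧ IsCoprime n q1 ∧ χ n ≠ χ1 n) :
    ∃ χ3 : DirichletCharacter ℂ (q1 * q), χ3 ≠ 1 ∧ χ3 ^ 2 = 1 ∧
      ∀ n : ℕ, χ3 (n : ZMod (q1 * q)) = χ1 (n : ZMod q1) * χ (n : ZMod q) := by
  have hne : NeZero (q1 * q) := ⟨mul_ne_zero (NeZero.ne q1) (NeZero.ne q)⟩
  set χ3 : DirichletCharacter ℂ (q1 * q) :=
    changeLevel (dvd_mul_right q1 q) χ1 * changeLevel (dvd_mul_left q q1) χ with hχ3
  have hZ : ∀ n : ℤ, IsCoprime n ((q1 * q : ℕ) : ℤ) → χ3 n = χ1 n * χ n := by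
    intro n hn
    rw [hχ3, MulChar.mul_apply, changeLevel_eq_cast_of_dvd' _ _ hn,
      changeLevel_eq_cast_of_dvd' _ _ hn]
  refine ⟨χ3, ?_, ?_, ?_⟩
  · intro h1
    obtain ⟨n, hn, hn1, hnn⟩ := h
    have hcop : IsCoprime n ((q1 * q : ℕ) : ℤ) := by
      push_cast
      exact hn1.mul_right hn
    have h2 := hZ n hcop
    rw [h1] at h2
    have h3 : (1 : DirichletCharacter ℂ (q1 * q)) n = 1 := by
      have : IsUnit ((n : ℤ) : ZMod (q1 * q)) := by
        rw [ZMod.coe_int_isUnit_iff_isCoprime]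
        exact hcop.symm
      exact MulChar.one_apply this
    rw [h3] at h2
    have h4 : χ n ^ 2 = 1 := by
      have : IsUnit ((n : ℤ) : ZMod q) := by
        rw [ZMod.coe_int_isUnit_iff_isCoprime]
        exact hn.symm
      rw [← MulChar.pow_apply' χ two_ne_zero, hχ2]
      exact MulChar.one_apply this
    apply hnn
    calc χ n = (χ1 n * χ n) * χ n := by rw [← h2, one_mul]
      _ = χ1 n * χ n ^ 2 := by ring
      _ = χ1 n := by rw [h4, mul_one]
  · rw [hχ3, mul_pow, ← map_pow, ← map_pow, hχ2, hχ12, map_one, map_one, mul_one]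
  · intro n
    by_cases hcop : IsCoprime ((n : ℕ) : ℤ) ((q1 * q : ℕ) : ℤ)
    · have := hZ n hcop
      simpa using this
    · have h1 : χ3 ((n : ℤ) : ZMod (q1 * q)) = 0 := (apply_eq_zero_iff χ3 _).2 hcop
      have h2 : ¬ (IsCoprime ((n : ℕ) : ℤ) q1 ∧ IsCoprime ((n : ℕ) : ℤ) q) := by
        rintro ⟨h3, h4⟩
        apply hcop
        push_cast
        exact h3.mul_right h4
      have h1' : χ3 (n : ZMod (q1 * q)) = 0 := by simpa using h1
      rw [h1']
      by_cases h3 : IsCoprime ((n : ℕ) : ℤ) q1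
      · have h4 : ¬ IsCoprime ((n : ℕ) : ℤ) q := fun h => h2 ⟨h3, h⟩
        have h5 : χ ((n : ℤ) : ZMod q) = 0 := (apply_eq_zero_iff χ _).2 h4
        have h5' : χ (n : ZMod q) = 0 := by simpa using h5
        rw [h5', mul_zero]
      · have h5 : χ1 ((n : ℤ) : ZMod q1) = 0 := (apply_eq_zero_iff χ1 _).2 h3
        have h5' : χ1 (n : ZMod q1) = 0 := by simpa using h5
        rw [h5', zero_mul]

/-- the bound in the absence of exceptional zeros -/
theorem case_a (h1 : LBound) (h5 : AltOne) {c K C0 : ℝ} (hc : 0 < c) (hK : 0 < K) (hC0 : 1 ≤ C0)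
    (hE : ∀ (La : ℂ → ℂ) (lam B β : ℝ), Differentiable ℂ La → La 1 = lam →
      (∀ m : ℕ, 0 ≤ ((-1 : ℂ) ^ m * iteratedDeriv m (fun s => riemannZeta s * La s) 2).re) →
      1 ≤ (riemannZeta 2 * La 2).re → 1 ≤ B → (∀ s : ℂ, ‖s - 2‖ = 4 / 3 → ‖La s‖ ≤ B) →
      |lam| ≤ B → 9 / 10 ≤ β → β < 1 → (riemannZeta β * La β).re ≤ 0 →
      c * (1 - β) * (C0 * B) ^ (-(K * (1 - β))) ≤ lam)
    (e : ℝ) (he : 0 < e) (he1 : e ≤ 1 / 10)
    (hz : ∀ β : ℝ, 1 - e < β → β < 1 → (riemannZeta β).re < 0)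
    (hno : ∀ (q : ℕ) [NeZero q] (χ : DirichletCharacter ℂ q), χ.IsPrimitive → χ ≠ 1 → χ ^ 2 = 1 →
      ∀ x : ℝ, 1 - e < x → x < 1 → LFunction χ x ≠ 0) (ε : ℝ) (hε : K * e ≤ ε) :
    ∃ c' : ℝ, 0 < c' ∧
    ∀ (q : ℕ) [NeZero q] (χ : DirichletCharacter ℂ q), χ.IsPrimitive → χ ≠ 1 → χ ^ 2 = 1 →
      c' * (q : ℝ) ^ (-ε) ≤ ‖LFunction χ 1‖ := by
  refine ⟨c * (e / 2) * (C0 * 5) ^ (-(K * (e / 2))), by positivity, ?_⟩
  intro q _ χ hp hχ1 hχ2
  have hq : (1 : ℝ) ≤ q := by exact_mod_cast NeZero.one_le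
  have hr := ofReal_re' hχ2 hχ1 1
  rw [Complex.ofReal_one] at hr
  have halt := h5 q χ hχ2
  have h6 := hE (LFunction χ) (LFunction χ 1).re (5 * q) (1 - e / 2) (differentiable_LFunction hχ1)
    hr halt.1 halt.2 (by linarith) (norm_le_circle h1 hχ1)
    ((Complex.abs_re_le_norm _).trans ((norm_le_one h1 hχ1).trans (by linarith)))
    (by linarith) (by linarith) (by
      rw [ofReal_re' hχ2 hχ1, mul_comm, Complex.re_ofReal_mul]
      have h7 := nonneg_of_no_zero h5 hχ2 hχ1 (1 - e / 2) (by linarith)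
        (fun x hx hx1 => hno q χ hp hχ1 hχ2 x (by linarith) hx1)
      have h8 := hz (1 - e / 2) (by linarith) (by linarith)
      nlinarith)
  have h7 : (LFunction χ 1).re ≤ ‖LFunction χ 1‖ := Complex.re_le_norm _
  refine le_trans ?_ (h6.trans h7)
  have h8 : (1 : ℝ) - (1 - e / 2) = e / 2 := by ring
  rw [h8, ← mul_assoc C0 5 (q : ℝ), Real.mul_rpow (x := C0 * 5) (y := (q : ℝ)) (by positivity)
    (by positivity), ← mul_assoc]
  apply mul_le_mul_of_nonneg_left _ (by positivity)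
  apply Real.rpow_le_rpow_of_exponent_le hq
  nlinarith

/-- the bound in the presence of one exceptional zero -/
theorem case_b (h1 : LBound) (h2 : LUpper) (h4 : AltProd) {c K C0 : ℝ} (hc : 0 < c) (hK : 0 < K)
    (hC0 : 1 ≤ C0)
    (hE : ∀ (La : ℂ → ℂ) (lam B β : ℝ), Differentiable ℂ La → La 1 = lam →
      (∀ m : ℕ, 0 ≤ ((-1 : ℂ) ^ m * iteratedDeriv m (fun s => riemannZeta s * La s) 2).re) →
      1 ≤ (riemannZeta 2 * La 2).re → 1 ≤ B → (∀ s : ℂ, ‖s - 2‖ = 4 / 3 → ‖La s‖ ≤ B) →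
      |lam| ≤ B → 9 / 10 ≤ β → β < 1 → (riemannZeta β * La β).re ≤ 0 →
      c * (1 - β) * (C0 * B) ^ (-(K * (1 - β))) ≤ lam)
    {q1 : ℕ} [NeZero q1] {χ1 : DirichletCharacter ℂ q1} (hp1 : χ1.IsPrimitive) (hχ11 : χ1 ≠ 1)
    (hχ12 : χ1 ^ 2 = 1) (b : ℝ) (hb : 9 / 10 ≤ b) (hb1 : b < 1) (hzero : LFunction χ1 b = 0)
    (ε : ℝ) (hε : 0 < ε) (hε2 : K * (1 - b) ≤ ε / 4) :
    ∃ c' : ℝ, 0 < c' ∧
    ∀ (q : ℕ) [NeZero q] (χ : DirichletCharacter ℂ q), χ.IsPrimitive → χ ≠ 1 → χ ^ 2 = 1 →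
      c' * (q : ℝ) ^ (-ε) ≤ ‖LFunction χ 1‖ := by
  obtain ⟨r, C, hr, hr4, hC, hU⟩ := h2 (ε / 2) (by positivity)
  have hL1 : LFunction χ1 1 ≠ 0 := LFunction_apply_one_ne_zero hχ11
  have hL1n : 0 < ‖LFunction χ1 1‖ := norm_pos_iff.2 hL1
  have hq1 : (1 : ℝ) ≤ q1 := by exact_mod_cast NeZero.one_le
  have h1b : 0 < 1 - b := by linarith
  set a : ℝ := K * (1 - b) with ha
  have ha0 : 0 < a := by positivity
  set N : ℝ := c * (1 - b) * (C0 * (125 * (q1 : ℝ) ^ 2)) ^ (-a) with hN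
  set M : ℝ := ‖LFunction χ1 1‖ * (C * (q1 : ℝ) ^ (ε / 2)) with hM
  have hN0 : 0 < N := by positivity
  have hM0 : 0 < M := by positivity
  refine ⟨min ‖LFunction χ1 1‖ (N / M), lt_min hL1n (by positivity), ?_⟩
  intro q _ χ hp hχ1 hχ2
  have hq : (1 : ℝ) ≤ q := by exact_mod_cast NeZero.one_le
  have hqe0 : (0 : ℝ) < (q : ℝ) ^ (-ε) := by positivity
  by_cases hS : ∀ n : ℤ, IsCoprime n q → IsCoprime n q1 → χ n = χ1 n
  · rw [same hp hp1 hS]
    have hqe : (q : ℝ) ^ (-ε) ≤ 1 := Real.rpow_le_one_of_one_le_of_nonpos hq (by linarith)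
    have := min_le_left ‖LFunction χ1 1‖ (N / M)
    calc min ‖LFunction χ1 1‖ (N / M) * (q : ℝ) ^ (-ε)
        ≤ ‖LFunction χ1 1‖ * 1 := mul_le_mul this hqe hqe0.le (norm_nonneg _)
      _ = ‖LFunction χ1 1‖ := mul_one _
  · push Not at hS
    obtain ⟨χ3, h31, h32, h33⟩ := chi3 hχ2 hχ12 hS
    have hne : NeZero (q1 * q) := ⟨mul_ne_zero (NeZero.ne q1) (NeZero.ne q)⟩
    have halt := h4 q1 q (q1 * q) χ1 χ χ3 hχ12 hχ2 h33
    set La : ℂ → ℂ := fun s => LFunction χ1 s * LFunction χ s * LFunction χ3 s with hLa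
    have hfun : (fun s => riemannZeta s * LFunction χ1 s * LFunction χ s * LFunction χ3 s) =
        fun s => riemannZeta s * La s := by
      funext s
      rw [hLa]
      ring
    rw [hfun] at halt
    have halt2 : 1 ≤ (riemannZeta 2 * La 2).re := by
      have := halt.2
      have e : riemannZeta 2 * LFunction χ1 2 * LFunction χ 2 * LFunction χ3 2 =
          riemannZeta 2 * La 2 := by
        rw [hLa]
        ring
      rwa [e] at this
    have hr1 := ofReal_re' hχ12 hχ11 1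
    have hr2 := ofReal_re' hχ2 hχ1 1
    have hr3 := ofReal_re' h32 h31 1
    rw [Complex.ofReal_one] at hr1 hr2 hr3
    set lam : ℝ := (LFunction χ1 1).re * (LFunction χ 1).re * (LFunction χ3 1).re with hlam
    have hLa1 : La 1 = lam := by
      rw [hlam]
      push_cast
      rw [← hr1, ← hr2, ← hr3]
    have habs : |lam| = ‖LFunction χ1 1‖ * ‖LFunction χ 1‖ * ‖LFunction χ3 1‖ := by
      have : |lam| = ‖(lam : ℂ)‖ := by rw [Complex.norm_real, Real.norm_eq_abs]
      rw [this, ← hLa1, hLa]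
      simp only
      rw [norm_mul, norm_mul]
    have hB : (1 : ℝ) ≤ 125 * (q1 : ℝ) ^ 2 * (q : ℝ) ^ 2 := by
      have h6 : (1 : ℝ) ≤ (q1 : ℝ) ^ 2 := one_le_pow₀ hq1
      have h7 : (1 : ℝ) ≤ (q : ℝ) ^ 2 := one_le_pow₀ hq
      nlinarith
    have hcast : (((q1 * q : ℕ) : ℕ) : ℝ) = (q1 : ℝ) * q := by push_cast; ring
    have hdiff : Differentiable ℂ La :=
      ((differentiable_LFunction hχ11).mul (differentiable_LFunction hχ1)).mul
        (differentiable_LFunction h31)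
    have hcirc : ∀ s : ℂ, ‖s - 2‖ = 4 / 3 → ‖La s‖ ≤ 125 * (q1 : ℝ) ^ 2 * (q : ℝ) ^ 2 := by
      intro s hs
      have b1 := norm_le_circle h1 hχ11 s hs
      have b2 := norm_le_circle h1 hχ1 s hs
      have b3 := norm_le_circle h1 h31 s hs
      rw [hcast] at b3
      rw [hLa]
      simp only
      rw [norm_mul, norm_mul]
      calc ‖LFunction χ1 s‖ * ‖LFunction χ s‖ * ‖LFunction χ3 s‖
          ≤ (5 * q1) * (5 * q) * (5 * (q1 * q)) := by
            apply mul_le_mul (mul_le_mul b1 b2 (norm_nonneg _) (by positivity)) b3 (norm_nonneg _)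
              (by positivity)
        _ = 125 * (q1 : ℝ) ^ 2 * (q : ℝ) ^ 2 := by ring
    have hlamB : |lam| ≤ 125 * (q1 : ℝ) ^ 2 * (q : ℝ) ^ 2 := by
      rw [habs]
      have b1 := norm_le_one h1 hχ11
      have b2 := norm_le_one h1 hχ1
      have b3 := norm_le_one h1 h31
      rw [hcast] at b3
      calc ‖LFunction χ1 1‖ * ‖LFunction χ 1‖ * ‖LFunction χ3 1‖
          ≤ (q1) * (q) * ((q1 * q)) := by
            apply mul_le_mul (mul_le_mul b1 b2 (norm_nonneg _) (by positivity)) b3 (norm_nonneg _)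
              (by positivity)
        _ ≤ 125 * (q1 : ℝ) ^ 2 * (q : ℝ) ^ 2 := by
            have : (0 : ℝ) ≤ (q1 : ℝ) ^ 2 * (q : ℝ) ^ 2 := by positivity
            nlinarith
    have h6 := hE La lam (125 * (q1 : ℝ) ^ 2 * (q : ℝ) ^ 2) b hdiff hLa1 halt.1 halt2 hB hcirc
      hlamB hb hb1 (by
        have : La b = 0 := by
          rw [hLa]
          simp only
          rw [hzero, zero_mul, zero_mul]
        rw [this, mul_zero, Complex.zero_re])
    rw [← ha] at h6
    have h7 : c * (1 - b) * (C0 * (125 * (q1 : ℝ) ^ 2 * (q : ℝ) ^ 2)) ^ (-a) =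
        N * ((q : ℝ) ^ 2) ^ (-a) := by
      rw [← mul_assoc C0, Real.mul_rpow (by positivity) (by positivity), ← mul_assoc]
    have h8 : (q : ℝ) ^ (-(ε / 2)) ≤ ((q : ℝ) ^ 2) ^ (-a) := by
      rw [← Real.rpow_natCast, ← Real.rpow_mul (by linarith)]
      apply Real.rpow_le_rpow_of_exponent_le hq
      push_cast
      linarith
    have h9 : N * (q : ℝ) ^ (-(ε / 2)) ≤ lam := by
      refine le_trans (mul_le_mul_of_nonneg_left h8 hN0.le) ?_
      rw [← h7]
      exact h6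
    have h10 : lam ≤ ‖LFunction χ 1‖ * (M * (q : ℝ) ^ (ε / 2)) := by
      refine (le_abs_self _).trans ?_
      rw [habs]
      have h11 := (hU (q1 * q) χ3 h31 1 (by simpa using hr.le)).1
      rw [hcast, Real.mul_rpow (by positivity) (by positivity)] at h11
      calc ‖LFunction χ1 1‖ * ‖LFunction χ 1‖ * ‖LFunction χ3 1‖
          ≤ ‖LFunction χ1 1‖ * ‖LFunction χ 1‖ * (C * ((q1 : ℝ) ^ (ε / 2) * (q : ℝ) ^ (ε / 2))) :=
            mul_le_mul_of_nonneg_left h11 (by positivity)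
        _ = ‖LFunction χ 1‖ * (M * (q : ℝ) ^ (ε / 2)) := by rw [hM]; ring
    have h12 : (0 : ℝ) < (q : ℝ) ^ (ε / 2) := by positivity
    have h13 : N / M * (q : ℝ) ^ (-ε) ≤ ‖LFunction χ 1‖ := by
      have h14 : (q : ℝ) ^ (-ε) = (q : ℝ) ^ (-(ε / 2)) / (q : ℝ) ^ (ε / 2) := by
        rw [← Real.rpow_sub (by linarith)]
        congr 1
        ring
      rw [h14, div_mul_div_comm, div_le_iff₀ (by positivity)]
      exact h9.trans h10
    refine le_trans (mul_le_mul_of_nonneg_right (min_le_right _ _) hqe0.le) h13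

theorem siegelReal (h1 : LBound) (h2 : LUpper) (h3 : Estermann) (h4 : AltProd) (h5 : AltOne) :
    SiegelReal := by
  obtain ⟨c, K, C0, hc, hK, hC0, hE⟩ := estermann_apply h3
  obtain ⟨δ, hδ, hz⟩ := zeta_neg
  intro ε hε
  set e : ℝ := min (min (1 / 10) δ) (ε / (4 * K)) with he
  have he0 : 0 < e := lt_min (lt_min (by norm_num) hδ) (by positivity)
  have he1 : e ≤ 1 / 10 := (min_le_left _ _).trans (min_le_left _ _)
  have he2 : e ≤ δ := (min_le_left _ _).trans (min_le_right _ _)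
  have he3 : K * e ≤ ε / 4 := by
    have : e ≤ ε / (4 * K) := min_le_right _ _
    rw [le_div_iff₀ (by positivity)] at this
    linarith
  by_cases hno : ∀ (q : ℕ) [NeZero q] (χ : DirichletCharacter ℂ q), χ.IsPrimitive → χ ≠ 1 →
      χ ^ 2 = 1 → ∀ x : ℝ, 1 - e < x → x < 1 → LFunction χ x ≠ 0
  · exact case_a h1 h5 hc hK hC0 hE e he0 he1 (fun β hβ => hz β (by linarith)) hno ε (by linarith)
  · push Not at hno
    obtain ⟨q1, hq1, χ1, hp1, hχ11, hχ12, b, hb, hb1, hzero⟩ := hno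
    exact case_b h1 h2 h4 hc hK hC0 hE hp1 hχ11 hχ12 b (by linarith) hb1 hzero ε hε (by
      have : K * (1 - b) ≤ K * e := mul_le_mul_of_nonneg_left (by linarith) hK.le
      linarith)

end Pool.Agent.Helper37.BV
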